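import Pool.Agent.V7H20.PP.Growth

/-!
# The criterion in terms of runs
-/

set_option autoImplicit false

namespace Pool.Agent.V7H20.PP

open FreeGroup (of lift mk)

variable {r : ℕ}

/-- `l` is `x i ⁻¹, …, x i ⁻¹, x j ^ (±1), …` with `j < i` (`a ≥ 0` letters `x i ⁻¹`). -/
def SmallAfter (i : Fin r) (l : List (Fin r × Bool)) : Prop :=
  ∃ (a : ℕ) (x : Fin r × Bool) (l' : List (Fin r × Bool)),
    l = List.replicate a (i, false) ++ x :: l' ∧ x.1 < i

/-- Each letter `x i ⁻¹` of `l` is separated by letters `x i ⁻¹` only from a letter `x j ^ (±1)`
with `j < i`, on the left or on the right. -/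
def Guarded (l : List (Fin r × Bool)) : Prop :=
  ∀ (u v : List (Fin r × Bool)) (i : Fin r), l = u ++ (i, false) :: v →
    SmallAfter i u.reverse ∨ SmallAfter i v

lemma smallAfter_cons_self (i : Fin r) (l : List (Fin r × Bool)) :
    SmallAfter i ((i, false) :: l) ↔ SmallAfter i l := by
  constructor
  · rintro ⟨a, x, l', h, hx⟩
    cases a with
    | zero =>
      simp only [List.replicate_zero, List.nil_append, List.cons.injEq] at h
      rw [← h.1] at hx
      exact absurd hx (lt_irrefl _)
    | succ a =>
      rw [List.replicate_succ, List.cons_append, List.cons.injEq] at h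
      exact ⟨a, x, l', h.2, hx⟩
  · rintro ⟨a, x, l', h, hx⟩
    exact ⟨a + 1, x, l', by rw [List.replicate_succ, List.cons_append, h], hx⟩

lemma smallAfter_cons (i : Fin r) (y : Fin r × Bool) (l : List (Fin r × Bool)) (hy : y ≠ (i, false)) :
    SmallAfter i (y :: l) ↔ y.1 < i := by
  constructor
  · rintro ⟨a, x, l', h, hx⟩
    cases a with
    | zero =>
      simp only [List.replicate_zero, List.nil_append, List.cons.injEq] at h
      rw [h.1]
      exact hx
    | succ a =>
      rw [List.replicate_succ, List.cons_append, List.cons.injEq] at h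
      exact absurd h.1 hy
  · intro h
    exact ⟨0, y, l, rfl, h⟩

lemma not_smallAfter_nil (i : Fin r) : ¬ SmallAfter i ([] : List (Fin r × Bool)) := by
  rintro ⟨a, x, l', h, _⟩
  simp at h

lemma acc_of_guarded : ∀ (l q : List (Fin r × Bool)) (s : Fin r × Fin 3),
    List.IsChain (fun a b : Fin r × Bool => a.1 = b.1 → a.2 = b.2) (lt' s :: l) →
    (s.2 = 1 → SmallAfter s.1 (lt' s :: q)) → (s.2 = 2 → ¬ SmallAfter s.1 (lt' s :: q)) →
    Guarded ((lt' s :: q).reverse ++ l) → acc s l := by
  intro l
  induction l with
  | nil =>
    intro q s _ _ h2 hG hs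
    obtain ⟨i, f⟩ := s
    simp only at hs
    subst hs
    have h := hG q.reverse [] i (by simp [lt'])
    rcases h with h | h
    · rw [List.reverse_reverse] at h
      refine h2 rfl ?_
      have : lt' ((i, 2) : Fin r × Fin 3) = (i, false) := rfl
      rw [this, smallAfter_cons_self]
      exact h
    · exact not_smallAfter_nil i h
  | cons a l ih =>
    intro q s hch h1 h2 hG
    obtain ⟨j, b⟩ := a
    obtain ⟨i, f⟩ := s
    rw [List.isChain_cons_cons] at hch
    obtain ⟨hij, hch'⟩ := hch
    have hG' : Guarded (((j, b) :: lt' (i, f) :: q).reverse ++ l) := by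
      have e : ((j, b) :: lt' ((i, f) : Fin r × Fin 3) :: q).reverse ++ l =
          (lt' ((i, f) : Fin r × Fin 3) :: q).reverse ++ (j, b) :: l := by
        rw [List.reverse_cons (a := (j, b)), List.append_assoc]
        rfl
      rw [e]
      exact hG
    -- the three possible successor states
    have go0 : b = true → step (i, f) (j, b) = some (j, 0) → acc (i, f) ((j, b) :: l) := by
      rintro rfl hst
      refine ⟨_, hst, ih (lt' (i, f) :: q) (j, 0) hch' (by simp) (by simp) hG'⟩
    have go1 : b = false → SmallAfter j (lt' (i, f) :: q) → step (i, f) (j, b) = some (j, 1) →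
        acc (i, f) ((j, b) :: l) := by
      rintro rfl hS hst
      refine ⟨_, hst, ih (lt' (i, f) :: q) (j, 1) hch' (fun _ => ?_) (by simp) hG'⟩
      exact (smallAfter_cons_self j _).2 hS
    have go2 : b = false → ¬ SmallAfter j (lt' (i, f) :: q) → step (i, f) (j, b) = some (j, 2) →
        acc (i, f) ((j, b) :: l) := by
      rintro rfl hS hst
      refine ⟨_, hst, ih (lt' (i, f) :: q) (j, 2) hch' (by simp) (fun _ => ?_) hG'⟩
      exact fun h => hS ((smallAfter_cons_self j _).1 h)
    fin_cases f
    · -- after a positive letter
      cases b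
      · have hne : j ≠ i := fun h => by
          have := hij h.symm
          simp [lt'] at this
        rcases lt_or_gt_of_ne hne with h | h
        · refine go2 rfl ?_ ?_
          · rw [smallAfter_cons j _ _ (by simp [lt'])]
            exact not_lt.2 h.le
          · simp [PP.step, hne, not_lt.2 h.le]
        · refine go1 rfl ?_ ?_
          · rw [smallAfter_cons j _ _ (by simp [lt'])]
            exact h
          · simp [PP.step, hne, h]
      · exact go0 rfl (by simp [PP.step])
    · -- guarded on the left
      have hS := h1 rfl
      cases b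
      · rcases lt_trichotomy j i with h | h | h
        · refine go2 rfl ?_ ?_
          · rw [smallAfter_cons j _ _ (by simp [lt']; exact h.ne')]
            exact not_lt.2 h.le
          · simp [PP.step, h.ne, not_lt.2 h.le]
        · subst h
          refine go1 rfl hS ?_
          simp [PP.step]
        · refine go1 rfl ?_ ?_
          · rw [smallAfter_cons j _ _ (by simp [lt']; exact h.ne)]
            exact h
          · simp [PP.step, h]
      · have hne : j ≠ i := fun h => by
          have := hij h.symm
          simp [lt'] at this
        exact go0 rfl (by simp [PP.step, hne])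
    · -- must be guarded on the right
      have hS := h2 rfl
      have hR : SmallAfter i ((j, b) :: l) := by
        rcases hG q.reverse ((j, b) :: l) i (by simp [lt']) with h | h
        · rw [List.reverse_reverse] at h
          exact absurd ((smallAfter_cons_self i q).2 h) hS
        · exact h
      cases b
      · by_cases h : j = i
        · subst h
          refine go2 rfl hS ?_
          simp [PP.step]
        · rw [smallAfter_cons i _ _ (by simpa using h)] at hR
          refine go2 rfl ?_ ?_
          · rw [smallAfter_cons j _ _ (by simp [lt']; exact fun h' => h h'.symm)]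
            exact not_lt.2 (le_of_lt hR)
          · simp only at hR
            simp [PP.step, hR]
      · rw [smallAfter_cons i _ _ (by simp)] at hR
        simp only at hR
        exact go0 rfl (by simp [PP.step, hR])

/-- **Guarded words are potentially positive.** -/
theorem pp_of_guarded (u : FreeGroup (Fin r)) (hu : Guarded u.toWord) : PotentiallyPositive u := by
  have hred := FreeGroup.isReduced_toWord (x := u)
  have hmk : mk u.toWord = u := FreeGroup.mk_toWord
  cases hw : u.toWord with
  | nil =>
    rw [FreeGroup.toWord_eq_nil_iff] at hw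
    refine ⟨MulEquiv.refl _, ?_⟩
    subst hw
    intro a ha
    simp at ha
  | cons a l =>
    rw [hw] at hu hred hmk
    obtain ⟨i, b⟩ := a
    rw [← hmk]
    cases b
    · obtain ⟨β, L, R, h⟩ := exists_data (r := r) (l.length + 1) r 0 rfl
      refine ⟨β, positive_of_mem ?_⟩
      have hacc : acc (i, 2) l := by
        refine acc_of_guarded l [] (i, 2) hred (by simp) (fun _ => ?_) hu
        have : lt' ((i, 2) : Fin r × Fin 3) = (i, false) := rfl
        rw [this, smallAfter_cons_self]
        exact not_smallAfter_nil i
      have hI : Inv β L R (l.length + 1) 1 (i, 2) (β (of i)⁻¹) := by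
        refine ⟨fun h => by simp at h, fun h => by simp at h, fun _ => ⟨1, le_rfl, ?_⟩⟩
        rw [map_inv, pow_one, inv_mul_cancel, one_mul]
        exact (h.2.2.2 _ (Nat.zero_le _) i.2).1
      have h1 := acc_mem h l 1 (i, 2) _ (by omega) hI hacc
      have h2 : ltr ((i, false) : Fin r × Bool) = (of i)⁻¹ := by simp [ltr]
      rwa [← map_mul, ← h2, ← mk_cons] at h1
    · exact pp_of_acc i l (acc_of_guarded l [] (i, 0) hred (by simp) (by simp) hu)

end Pool.Agent.V7H20.PP
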