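import Pool.Agent.V7H20.PP.Fam

/-!
# Counting the accepted words
-/

set_option autoImplicit false

namespace Pool.Agent.V7H20.PP

open FreeGroup (of lift mk)
open Finset

variable {r : ℕ}

/-- the word is accepted from the state `s` -/
def acc : Fin r × Fin 3 → List (Fin r × Bool) → Prop
  | s, [] => s.2 ≠ 2
  | s, a :: l => ∃ s', step s a = some s' ∧ acc s' l

lemma mk_cons (a : Fin r × Bool) (l : List (Fin r × Bool)) : mk (a :: l) = ltr a * mk l := by
  obtain ⟨j, b⟩ := a
  have h : ltr (j, b) = mk [(j, b)] := by
    cases b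
    · simp only [ltr, Bool.false_eq_true, if_false]
      rfl
    · simp only [ltr, if_true]
      rfl
  rw [h, FreeGroup.mul_mk]
  rfl

lemma acc_mem {N : ℕ} {β : FreeGroup (Fin r) ≃* FreeGroup (Fin r)} {L R : ℕ → FreeGroup (Fin r)}
    (h : Data N 0 β L R) : ∀ (l : List (Fin r × Bool)) (n : ℕ) (s : Fin r × Fin 3)
    (g : FreeGroup (Fin r)), n + l.length ≤ N → Inv β L R N n s g → acc s l → g * β (mk l) ∈ M r := by
  intro l
  induction l with
  | nil =>
    intro n s g hn hI hl
    have h1 := hI.mem h (by simpa using hn) hl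
    have h2 : (mk [] : FreeGroup (Fin r)) = 1 := rfl
    rwa [h2, map_one, mul_one]
  | cons a l ih =>
    intro n s g hn hI hl
    obtain ⟨s', hs, hl'⟩ := hl
    rw [List.length_cons] at hn
    have h1 := ih (n + 1) s' _ (by omega) (hI.step h (by omega) hs) hl'
    rwa [mul_assoc, ← map_mul, ← mk_cons] at h1

/-- the letter before the state `s` -/
def lt' (s : Fin r × Fin 3) : Fin r × Bool := (s.1, decide (s.2 = 0))

lemma step_lt {s s' : Fin r × Fin 3} {a : Fin r × Bool} (hs : step s a = some s') :
    ((lt' s).1 = a.1 → (lt' s).2 = a.2) ∧ lt' s' = a := by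
  obtain ⟨j, b⟩ := a
  obtain ⟨i, f⟩ := s
  unfold PP.step at hs
  cases b
  · simp only [Bool.false_eq_true, if_false] at hs
    split_ifs at hs with h1 h2 h3 h4 h5 h6 <;> obtain rfl := Option.some.inj hs <;>
      simp_all [lt', eq_comm]
  · simp only [if_true] at hs
    split_ifs at hs with h1 h2 h3 h4 <;> obtain rfl := Option.some.inj hs <;>
      simp_all [lt', eq_comm]
    all_goals omega

lemma acc_chain : ∀ (l : List (Fin r × Bool)) (s : Fin r × Fin 3), acc s l →
    List.IsChain (fun a b : Fin r × Bool => a.1 = b.1 → a.2 = b.2) (lt' s :: l) := by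
  intro l
  induction l with
  | nil => exact fun s _ => List.isChain_singleton _
  | cons a l ih =>
    intro s hl
    obtain ⟨s', hs, hl'⟩ := hl
    obtain ⟨h1, h2⟩ := step_lt hs
    rw [List.isChain_cons_cons]
    refine ⟨h1, ?_⟩
    have := ih s' hl'
    rwa [h2] at this

/-- `u` is positive: in its reduced word no generator appears with a negative exponent. -/
def IsPositive (u : FreeGroup (Fin r)) : Prop := ∀ a ∈ u.toWord, a.2 = true

/-- `u` is potentially positive: some automorphism makes it positive. -/
def PotentiallyPositive (u : FreeGroup (Fin r)) : Prop :=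
  ∃ α : FreeGroup (Fin r) ≃* FreeGroup (Fin r), IsPositive (α u)

lemma positive_of_mem {g : FreeGroup (Fin r)} (hg : g ∈ M r) : IsPositive g := by
  unfold IsPositive
  induction hg using Submonoid.closure_induction with
  | mem x hx =>
    obtain ⟨j, rfl⟩ := hx
    intro a ha
    rw [FreeGroup.toWord_of] at ha
    simp only [List.mem_singleton] at ha
    rw [ha]
  | one =>
    intro a ha
    rw [FreeGroup.toWord_one] at ha
    simp at ha
  | mul x y _ _ hx hy =>
    intro a ha
    have hall : ∀ a ∈ x.toWord ++ y.toWord, a.2 = true := fun a ha => by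
      rcases List.mem_append.1 ha with h | h
      · exact hx a h
      · exact hy a h
    have hred : FreeGroup.IsReduced (x.toWord ++ y.toWord) := by
      unfold FreeGroup.IsReduced
      rw [List.isChain_iff_forall_rel_of_append_cons_cons]
      intro a b l₁ l₂ h _
      rw [hall a (by rw [h]; simp), hall b (by rw [h]; simp)]
    rw [FreeGroup.toWord_mul, hred.reduce_eq] at ha
    exact hall a ha

/-- **Accepted words are potentially positive.** -/
theorem pp_of_acc (i : Fin r) (l : List (Fin r × Bool)) (hl : acc (i, 0) l) :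
    PotentiallyPositive (mk ((i, true) :: l)) := by
  obtain ⟨β, L, R, h⟩ := exists_data (r := r) (l.length + 1) r 0 rfl
  refine ⟨β, positive_of_mem ?_⟩
  have hI : Inv β L R (l.length + 1) 1 (i, 0) (β (of i)) := by
    refine ⟨fun _ => ⟨L (i + 1) * of i, mul_mem (h.2.2.2 _ (Nat.zero_le _) i.2).1 (of_mem i), ?_⟩,
      fun h => by simp at h, fun h => by simp at h⟩
    exact h.2.1 i (Nat.zero_le _)
  have h1 := acc_mem h l 1 (i, 0) _ (by omega) hI hl
  rwa [← map_mul, show of i = ltr (i, true) from rfl, ← mk_cons] at h1

lemma word_of_acc (i : Fin r) (l : List (Fin r × Bool)) (hl : acc (i, 0) l) :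
    (mk ((i, true) :: l)).toWord = (i, true) :: l := by
  have h1 : FreeGroup.IsReduced ((i, true) :: l) := by
    have := acc_chain l (i, 0) hl
    simpa [lt', FreeGroup.IsReduced] using this
  rw [FreeGroup.toWord_mk, h1.reduce_eq]

/-- the number of accepted words of length `n` -/
def cnt : ℕ → Fin r × Fin 3 → ℕ
  | 0, s => if s.2 = 2 then 0 else 1
  | n + 1, s => ∑ a : Fin r × Bool, (step s a).elim 0 (cnt n)

/-- the accepted words of length `n` -/
def words : ℕ → Fin r × Fin 3 → Finset (List (Fin r × Bool))
  | 0, s => if s.2 = 2 then ∅ else {[]}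
  | n + 1, s => univ.biUnion fun a : Fin r × Bool =>
      (step s a).elim ∅ fun s' => (words n s').image (List.cons a)

lemma mem_words : ∀ (n : ℕ) (s : Fin r × Fin 3) (l : List (Fin r × Bool)),
    l ∈ words n s → l.length = n ∧ acc s l := by
  intro n
  induction n with
  | zero =>
    intro s l hl
    unfold words at hl
    split_ifs at hl with h
    · simp at hl
    · rw [mem_singleton] at hl
      subst hl
      exact ⟨rfl, h⟩
  | succ n ih =>
    intro s l hl
    unfold words at hl
    rw [mem_biUnion] at hl
    obtain ⟨a, -, ha⟩ := hl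
    cases hs : step s a with
    | none =>
      rw [hs] at ha
      simp at ha
    | some s' =>
      rw [hs] at ha
      simp only [Option.elim, mem_image] at ha
      obtain ⟨l', hl', rfl⟩ := ha
      obtain ⟨h1, h2⟩ := ih s' l' hl'
      exact ⟨by rw [List.length_cons, h1], s', hs, h2⟩

lemma card_words : ∀ (n : ℕ) (s : Fin r × Fin 3), (words n s).card = cnt n s := by
  intro n
  induction n with
  | zero =>
    intro s
    unfold words cnt
    split_ifs <;> simp
  | succ n ih =>
    intro s
    unfold words cnt
    rw [card_biUnion]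
    · refine sum_congr rfl fun a _ => ?_
      cases hs : step s a with
      | none => simp
      | some s' =>
        simp only [Option.elim]
        rw [card_image_of_injective _ (List.cons_injective), ih]
    · intro a _ b _ hab
      rw [Function.onFun, disjoint_left]
      intro l hl hl'
      have key : ∀ c : Fin r × Bool, l ∈ (step s c).elim ∅ (fun s' => (words n s').image (List.cons c)) →
          ∃ l', l = c :: l' := by
        intro c hc
        cases hs : step s c with
        | none => rw [hs] at hc; simp at hc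
        | some s' =>
          rw [hs] at hc
          simp only [Option.elim, mem_image] at hc
          obtain ⟨l', _, h⟩ := hc
          exact ⟨l', h.symm⟩
      obtain ⟨l1, h1⟩ := key a hl
      obtain ⟨l2, h2⟩ := key b hl'
      rw [h1] at h2
      exact hab (List.cons.inj h2).1

/-- lower bound for the number of accepted words -/
lemma cnt_ge (v : Fin r × Fin 3 → ℕ) (A B V : ℕ) (hV : ∀ s, v s ≤ V * cnt 1 s)
    (hv : ∀ s, A * v s ≤ B * ∑ a : Fin r × Bool, (step s a).elim 0 v) :
    ∀ (n : ℕ) (s : Fin r × Fin 3), A ^ n * v s ≤ B ^ n * (V * cnt (n + 1) s) := by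
  intro n
  induction n with
  | zero => simpa using hV
  | succ n ih =>
    intro s
    have h1 : cnt (n + 1 + 1) s = ∑ a : Fin r × Bool, (step s a).elim 0 (cnt (n + 1)) := rfl
    have h2 : A ^ n * ∑ a : Fin r × Bool, (step s a).elim 0 v ≤
        B ^ n * (V * ∑ a : Fin r × Bool, (step s a).elim 0 (cnt (n + 1))) := by
      rw [mul_sum, mul_sum, mul_sum]
      refine sum_le_sum fun a _ => ?_
      cases step s a with
      | none => simp
      | some s' => exact ih s'
    calc A ^ (n + 1) * v s = A ^ n * (A * v s) := by ring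
      _ ≤ A ^ n * (B * ∑ a : Fin r × Bool, (step s a).elim 0 v) := Nat.mul_le_mul_left _ (hv s)
      _ = B * (A ^ n * ∑ a : Fin r × Bool, (step s a).elim 0 v) := by ring
      _ ≤ B * (B ^ n * (V * ∑ a : Fin r × Bool, (step s a).elim 0 (cnt (n + 1)))) :=
          Nat.mul_le_mul_left _ h2
      _ = B ^ (n + 1) * (V * cnt (n + 1 + 1) s) := by rw [h1]; ring

/-- the number of potentially positive elements of length `n` in the free group of rank `r` -/
noncomputable def p (r n : ℕ) : ℕ :=
  {u : FreeGroup (Fin r) | u.norm = n ∧ PotentiallyPositive u}.ncard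

lemma finite_norm (r n : ℕ) : {u : FreeGroup (Fin r) | u.norm = n}.Finite := by
  have h : (Set.range fun f : Fin n → Fin r × Bool => List.ofFn f).Finite := Set.finite_range _
  refine Set.Finite.of_finite_image (f := FreeGroup.toWord) (h.subset ?_)
    FreeGroup.toWord_injective.injOn
  rintro _ ⟨u, hu, rfl⟩
  have hu' : u.toWord.length = n := hu
  subst hu'
  exact ⟨u.toWord.get, List.ofFn_get _⟩

lemma p_le (r n : ℕ) : p r n ≤ (2 * r) ^ n := by
  have h1 : p r n ≤ (Set.range fun f : Fin n → Fin r × Bool => List.ofFn f).ncard := by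
    have h2 : (FreeGroup.toWord '' {u : FreeGroup (Fin r) | u.norm = n ∧ PotentiallyPositive u}).ncard =
        p r n := Set.ncard_image_of_injective _ FreeGroup.toWord_injective
    rw [← h2]
    refine Set.ncard_le_ncard ?_ (Set.finite_range _)
    rintro _ ⟨u, hu, rfl⟩
    have hu' : u.toWord.length = n := hu.1
    subst hu'
    exact ⟨u.toWord.get, List.ofFn_get _⟩
  refine h1.trans ?_
  rw [← Set.image_univ]
  refine (Set.ncard_image_le Set.finite_univ).trans ?_
  rw [Set.ncard_univ, Nat.card_eq_fintype_card, Fintype.card_fun, Fintype.card_prod, Fintype.card_fin,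
    Fintype.card_fin, Fintype.card_bool, mul_comm r 2]

lemma cnt_le_p (i : Fin r) (n : ℕ) : cnt n (i, 0) ≤ p r (n + 1) := by
  classical
  rw [← card_words, ← Set.ncard_coe_finset]
  have hinj : Set.InjOn (fun l : List (Fin r × Bool) => mk ((i, true) :: l)) (words n (i, 0)) := by
    intro l hl l' hl' h
    have h1 := word_of_acc i l (mem_words n _ l hl).2
    have h2 := word_of_acc i l' (mem_words n _ l' hl').2
    simp only at h
    rw [h, h2] at h1
    exact ((List.cons.inj h1).2).symm
  rw [← hinj.ncard_image]
  refine Set.ncard_le_ncard ?_ ((finite_norm r (n + 1)).subset fun u hu => hu.1)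
  rintro _ ⟨l, hl, rfl⟩
  have hm := mem_words n _ l hl
  refine ⟨?_, pp_of_acc i l hm.2⟩
  change (mk ((i, true) :: l)).toWord.length = n + 1
  rw [word_of_acc i l hm.2, List.length_cons, hm.1]

end Pool.Agent.V7H20.PP
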