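import Mathlib

/-!
# Potentially positive words in a free group: runs of inverse letters with a smaller neighbour

The letters of `FreeGroup (Fin r)` are ordered by the index.
-/

set_option autoImplicit false

namespace Pool.Agent.V7H20.PP

open FreeGroup (of lift)

variable {r : ℕ}

/-- the positive elements: products of generators -/
def M (r : ℕ) : Submonoid (FreeGroup (Fin r)) := Submonoid.closure (Set.range FreeGroup.of)

lemma of_mem (j : Fin r) : of j ∈ M r := Submonoid.subset_closure ⟨j, rfl⟩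

/-- `x j ↦ x k ^ N * x j * x k ^ N` for `j < k` -/
noncomputable def al (k : Fin r) (N : ℤ) : FreeGroup (Fin r) →* FreeGroup (Fin r) :=
  lift fun j => if j < k then of k ^ N * of j * of k ^ N else of j

lemma al_of (k : Fin r) (N : ℤ) (j : Fin r) :
    al k N (of j) = if j < k then of k ^ N * of j * of k ^ N else of j := by
  simp [al]

lemma al_al (k : Fin r) (N : ℤ) : (al k (-N)).comp (al k N) = MonoidHom.id _ := by
  ext j
  rw [MonoidHom.comp_apply, al_of, MonoidHom.id_apply]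
  have hk : al k (-N) (of k) = of k := by
    rw [al_of, if_neg (lt_irrefl k)]
  split_ifs with h
  · rw [map_mul, map_mul, map_zpow, hk, al_of, if_pos h]
    group
  · rw [al_of, if_neg h]

/-- the automorphism `al` -/
noncomputable def alE (k : Fin r) (N : ℤ) : FreeGroup (Fin r) ≃* FreeGroup (Fin r) :=
  MonoidHom.toMulEquiv (al k N) (al k (-N)) (al_al k N) (by
    have := al_al k (-N)
    rwa [neg_neg] at this)

lemma alE_of (k : Fin r) (N : ℤ) (j : Fin r) :
    alE k N (of j) = if j < k then of k ^ N * of j * of k ^ N else of j := al_of k N j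

/-- the data after the automorphisms of the indices `≥ k` -/
def Data (N k : ℕ) (β : FreeGroup (Fin r) ≃* FreeGroup (Fin r)) (L R : ℕ → FreeGroup (Fin r)) : Prop :=
  (∀ j : Fin r, (j : ℕ) < k → β (of j) = L k * of j * R k) ∧
  (∀ j : Fin r, k ≤ (j : ℕ) → β (of j) = L (j + 1) * of j * R (j + 1)) ∧
  (∀ j : Fin r, k ≤ (j : ℕ) → L j = β (of j) ^ N * L (j + 1) ∧ R j = R (j + 1) * β (of j) ^ N) ∧
  ∀ i, k ≤ i → i ≤ r → L i ∈ M r ∧ R i ∈ M r

lemma exists_data (N : ℕ) : ∀ n k : ℕ, n + k = r → ∃ β L R, Data (r := r) N k β L R := by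
  intro n
  induction n with
  | zero =>
    intro k hk
    refine ⟨MulEquiv.refl _, fun _ => 1, fun _ => 1, fun j _ => by simp, fun j hj => ?_, fun j hj => ?_,
      fun i _ _ => ⟨one_mem _, one_mem _⟩⟩
    · exact absurd j.2 (by omega)
    · exact absurd j.2 (by omega)
  | succ n ih =>
    intro k hk
    obtain ⟨β, L, R, h1, h2, h3, h4⟩ := ih (k + 1) (by omega)
    have hkr : k < r := by omega
    set κ : Fin r := ⟨k, hkr⟩ with hκ
    have hκ1 : β (of κ) = L (k + 1) * of κ * R (k + 1) := h1 κ (by simp [hκ])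
    have hmem := h4 (k + 1) le_rfl (by omega)
    have hE : β (of κ) ∈ M r := by
      rw [hκ1]
      exact mul_mem (mul_mem hmem.1 (of_mem κ)) hmem.2
    set β' : FreeGroup (Fin r) ≃* FreeGroup (Fin r) := (alE κ N).trans β with hβ'
    have hge : ∀ j : Fin r, k ≤ (j : ℕ) → β' (of j) = β (of j) := by
      intro j hj
      rw [hβ', MulEquiv.trans_apply, alE_of, if_neg]
      rw [not_lt, Fin.le_def]
      exact hj
    refine ⟨β', fun i => if i = k then β (of κ) ^ N * L (k + 1) else L i,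
      fun i => if i = k then R (k + 1) * β (of κ) ^ N else R i, fun j hj => ?_, fun j hj => ?_,
      fun j hj => ?_, fun i hi hi' => ?_⟩
    · beta_reduce
      rw [hβ', MulEquiv.trans_apply, alE_of, if_pos (Fin.lt_def.2 hj), map_mul, map_mul, map_zpow,
        h1 j (by omega), if_pos rfl, if_pos rfl, zpow_natCast]
      simp only [mul_assoc]
    · have e1 : (j : ℕ) + 1 ≠ k := by omega
      beta_reduce
      rw [hge j hj, if_neg e1, if_neg e1]
      rcases Nat.eq_or_lt_of_le hj with h | h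
      · have : j = κ := Fin.ext h.symm
        rw [this]
        exact hκ1
      · exact h2 j h
    · have e1 : (j : ℕ) + 1 ≠ k := by omega
      beta_reduce
      rw [hge j hj, if_neg e1, if_neg e1]
      rcases Nat.eq_or_lt_of_le hj with h | h
      · have : j = κ := Fin.ext h.symm
        rw [this]
        simp [hκ]
      · have e2 : (j : ℕ) ≠ k := by omega
        rw [if_neg e2, if_neg e2]
        exact h3 j h
    · rcases Nat.eq_or_lt_of_le hi with h | h
      · beta_reduce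
        rw [if_pos h.symm, if_pos h.symm]
        exact ⟨mul_mem (pow_mem hE _) hmem.1, mul_mem hmem.2 (pow_mem hE _)⟩
      · have e2 : i ≠ k := by omega
        beta_reduce
        rw [if_neg e2, if_neg e2]
        exact h4 i h hi'

section Inv

variable {N : ℕ} {β : FreeGroup (Fin r) ≃* FreeGroup (Fin r)} {L R : ℕ → FreeGroup (Fin r)}

lemma E_mem (h : Data N 0 β L R) (j : Fin r) : β (of j) ∈ M r := by
  rw [h.2.1 j (Nat.zero_le _)]
  have h4 := h.2.2.2 (j + 1) (Nat.zero_le _) j.2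
  exact mul_mem (mul_mem h4.1 (of_mem j)) h4.2

/-- powers of `E j` times `L (j + 1)` start with `L (j + 1)` -/
lemma pow_L (h : Data N 0 β L R) (j : Fin r) (n : ℕ) :
    ∃ m ∈ M r, β (of j) ^ n * L (j + 1) = L (j + 1) * m := by
  cases n with
  | zero => exact ⟨1, one_mem _, by simp⟩
  | succ n =>
    have h4 := h.2.2.2 (j + 1) (Nat.zero_le _) j.2
    refine ⟨of j * R (j + 1) * β (of j) ^ n * L (j + 1), mul_mem (mul_mem (mul_mem (of_mem j) h4.2)
      (pow_mem (E_mem h j) n)) h4.1, ?_⟩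
    rw [pow_succ']
    nth_rewrite 1 [h.2.1 j (Nat.zero_le _)]
    simp only [mul_assoc]

lemma pow_R (h : Data N 0 β L R) (j : Fin r) (n : ℕ) :
    ∃ m ∈ M r, R (j + 1) * β (of j) ^ n = m * R (j + 1) := by
  cases n with
  | zero => exact ⟨1, one_mem _, by simp⟩
  | succ n =>
    have h4 := h.2.2.2 (j + 1) (Nat.zero_le _) j.2
    refine ⟨R (j + 1) * β (of j) ^ n * L (j + 1) * of j, mul_mem (mul_mem (mul_mem h4.2
      (pow_mem (E_mem h j) n)) h4.1) (of_mem j), ?_⟩
    rw [pow_succ]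
    nth_rewrite 2 [h.2.1 j (Nat.zero_le _)]
    simp only [mul_assoc]

/-- `L i` starts with `L i'` for `i ≤ i'` -/
lemma L_le (h : Data N 0 β L R) : ∀ d i : ℕ, i + d ≤ r → ∃ m ∈ M r, L i = L (i + d) * m := by
  intro d
  induction d with
  | zero => exact fun i _ => ⟨1, one_mem _, by simp⟩
  | succ d ih =>
    intro i hi
    obtain ⟨m, hm, h1⟩ := ih (i + 1) (by omega)
    have h3 := (h.2.2.1 ⟨i, by omega⟩ (Nat.zero_le _)).1
    obtain ⟨m', hm', h5⟩ := pow_L h ⟨i, by omega⟩ N
    refine ⟨m * m', mul_mem hm hm', ?_⟩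
    simp only at h3 h5
    rw [h3, h5, h1, show i + 1 + d = i + (d + 1) by ring, mul_assoc]

lemma R_le (h : Data N 0 β L R) : ∀ d i : ℕ, i + d ≤ r → ∃ m ∈ M r, R i = m * R (i + d) := by
  intro d
  induction d with
  | zero => exact fun i _ => ⟨1, one_mem _, by simp⟩
  | succ d ih =>
    intro i hi
    obtain ⟨m, hm, h1⟩ := ih (i + 1) (by omega)
    have h3 := (h.2.2.1 ⟨i, by omega⟩ (Nat.zero_le _)).2
    obtain ⟨m', hm', h5⟩ := pow_R h ⟨i, by omega⟩ N
    refine ⟨m' * m, mul_mem hm' hm, ?_⟩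
    simp only at h3 h5
    rw [h3, h5, h1, show i + 1 + d = i + (d + 1) by ring, mul_assoc]

/-- a smaller letter absorbs a run of `t ≤ N` inverse letters `i` on its left -/
lemma absorb_L (h : Data N 0 β L R) (i : Fin r) {k t : ℕ} (hk : k ≤ i) (ht : t ≤ N) :
    ∃ m ∈ M r, L k = β (of i) ^ t * L (i + 1) * m := by
  obtain ⟨d, hd⟩ := Nat.exists_eq_add_of_le hk
  obtain ⟨m, hm, h1⟩ := L_le h d k (by have := i.2; omega)
  obtain ⟨m', hm', h5⟩ := pow_L h i (N - t)
  have h3 := (h.2.2.1 i (Nat.zero_le _)).1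
  refine ⟨m' * m, mul_mem hm' hm, ?_⟩
  rw [h1, ← hd, h3, ← mul_assoc, mul_assoc (β (of i) ^ t), ← h5, ← mul_assoc (β (of i) ^ t),
    ← pow_add, Nat.add_sub_cancel' ht]

/-- the letter as an element -/
def ltr (a : Fin r × Bool) : FreeGroup (Fin r) := if a.2 then of a.1 else (of a.1)⁻¹

/-- the automaton; states: `(i, 0)` after the letter `x i`, `(i, 1)` in a run of `x i ⁻¹` with a
smaller left neighbour, `(i, 2)` in a run of `x i ⁻¹` which must have a smaller right neighbour -/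
def step (s : Fin r × Fin 3) (a : Fin r × Bool) : Option (Fin r × Fin 3) :=
  if a.2 then
    (if s.2 = 0 then some (a.1, 0) else if s.2 = 1 then (if a.1 = s.1 then none else some (a.1, 0))
      else if a.1 < s.1 then some (a.1, 0) else none)
  else
    (if s.2 = 0 then (if a.1 = s.1 then none else if s.1 < a.1 then some (a.1, 1) else some (a.1, 2))
      else if s.2 = 1 then (if a.1 = s.1 ∨ s.1 < a.1 then some (a.1, 1) else some (a.1, 2))
      else if a.1 = s.1 ∨ a.1 < s.1 then some (a.1, 2) else none)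

/-- the invariant -/
def Inv (β : FreeGroup (Fin r) ≃* FreeGroup (Fin r)) (L R : ℕ → FreeGroup (Fin r)) (N n : ℕ)
    (s : Fin r × Fin 3) (g : FreeGroup (Fin r)) : Prop :=
  (s.2 = 0 → ∃ m ∈ M r, g = m * R (s.1 + 1)) ∧
  (s.2 = 1 → ∃ t ≤ n, ∃ m ∈ M r, g * β (of s.1) ^ t = m * R (s.1 + 1) * β (of s.1) ^ N) ∧
  (s.2 = 2 → ∃ t ≤ n, g * β (of s.1) ^ t * L (s.1 + 1) ∈ M r)

/-- in the states `0`, `1` the element ends with `R (i + 1)` -/
lemma Inv.ends (h : Data N 0 β L R) {n : ℕ} (hn : n ≤ N) {s : Fin r × Fin 3} {g : FreeGroup (Fin r)}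
    (hI : Inv β L R N n s g) (hs : s.2 ≠ 2) : ∃ m ∈ M r, g = m * R (s.1 + 1) := by
  have h3 : s.2 = 0 ∨ s.2 = 1 := by
    have := s.2.2
    rcases s with ⟨i, f⟩
    fin_cases f <;> simp_all
  rcases h3 with h3 | h3
  · exact hI.1 h3
  · obtain ⟨t, ht, m, hm, h1⟩ := hI.2.1 h3
    obtain ⟨m', hm', h5⟩ := pow_R h s.1 (N - t)
    refine ⟨m * m', mul_mem hm hm', ?_⟩
    have h6 : g = m * R (s.1 + 1) * β (of s.1) ^ N * (β (of s.1) ^ t)⁻¹ := by
      rw [← h1, mul_inv_cancel_right]
    rw [h6, ← Nat.sub_add_cancel (ht.trans hn), pow_add]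
    rw [mul_assoc m, mul_assoc m, ← mul_assoc (R _), h5]
    simp only [mul_assoc, mul_inv_cancel, mul_one]

lemma Inv.mem (h : Data N 0 β L R) {n : ℕ} (hn : n ≤ N) {s : Fin r × Fin 3} {g : FreeGroup (Fin r)}
    (hI : Inv β L R N n s g) (hs : s.2 ≠ 2) : g ∈ M r := by
  obtain ⟨m, hm, h1⟩ := hI.ends h hn hs
  rw [h1]
  exact mul_mem hm (h.2.2.2 _ (Nat.zero_le _) s.1.2).2

/-- the next letter is smaller: it absorbs the run of inverse letters -/
lemma Inv.debt (h : Data N 0 β L R) {n : ℕ} (hn : n ≤ N) {s : Fin r × Fin 3} {g : FreeGroup (Fin r)}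
    (hI : Inv β L R N n s g) (j : Fin r) (hj : s.2 = 2 → j < s.1) : g * L (j + 1) ∈ M r := by
  by_cases hs : s.2 = 2
  · obtain ⟨t, ht, h1⟩ := hI.2.2 hs
    obtain ⟨m, hm, h2⟩ := absorb_L h s.1 (k := j + 1) (t := t) (Fin.lt_def.1 (hj hs)) (ht.trans hn)
    rw [h2, ← mul_assoc, ← mul_assoc]
    exact mul_mem h1 hm
  · exact mul_mem (hI.mem h hn hs) (h.2.2.2 _ (Nat.zero_le _) j.2).1

lemma inv_pos (h : Data N 0 β L R) {n : ℕ} (hn : n ≤ N) {s : Fin r × Fin 3} {g : FreeGroup (Fin r)}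
    (hI : Inv β L R N n s g) (j : Fin r) (hj : s.2 = 2 → j < s.1) :
    Inv β L R N (n + 1) (j, 0) (g * β (of j)) := by
  refine ⟨fun _ => ⟨g * L (j + 1) * of j, mul_mem (hI.debt h hn j hj) (of_mem j), ?_⟩,
    fun h => by simp at h, fun h => by simp at h⟩
  rw [h.2.1 j (Nat.zero_le _)]
  simp only [mul_assoc]

lemma inv_two (h : Data N 0 β L R) {n : ℕ} (hn : n ≤ N) {s : Fin r × Fin 3} {g : FreeGroup (Fin r)}
    (hI : Inv β L R N n s g) (j : Fin r) (hj : s.2 = 2 → j < s.1) :
    Inv β L R N (n + 1) (j, 2) (g * β (of j)⁻¹) := by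
  refine ⟨fun h => by simp at h, fun h => by simp at h, fun _ => ⟨1, by omega, ?_⟩⟩
  rw [map_inv, pow_one, inv_mul_cancel_right]
  exact hI.debt h hn j hj

lemma inv_one (h : Data N 0 β L R) {n : ℕ} (hn : n ≤ N) {s : Fin r × Fin 3} {g : FreeGroup (Fin r)}
    (hI : Inv β L R N n s g) (hs : s.2 ≠ 2) (j : Fin r) (hj : s.1 < j) :
    Inv β L R N (n + 1) (j, 1) (g * β (of j)⁻¹) := by
  refine ⟨fun h => by simp at h, fun _ => ⟨1, by omega, ?_⟩, fun h => by simp at h⟩
  obtain ⟨m, hm, h1⟩ := hI.ends h hn hs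
  obtain ⟨d, hd⟩ := Nat.exists_eq_add_of_le (Fin.lt_def.1 hj : (s.1 : ℕ) + 1 ≤ j)
  obtain ⟨m', hm', h2⟩ := R_le h d (s.1 + 1) (by have := j.2; omega)
  have h3 := (h.2.2.1 j (Nat.zero_le _)).2
  refine ⟨m * m', mul_mem hm hm', ?_⟩
  change g * β (of j)⁻¹ * β (of j) ^ 1 = m * m' * R (j + 1) * β (of j) ^ N
  rw [map_inv, pow_one, inv_mul_cancel_right, h1, h2, mul_assoc (m * m'), ← h3, ← Nat.succ_eq_add_one,
    Nat.succ_eq_add_one, ← hd, mul_assoc]

lemma inv_run1 {n : ℕ} {j : Fin r} {g : FreeGroup (Fin r)}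
    (hI : Inv β L R N n (j, 1) g) : Inv β L R N (n + 1) (j, 1) (g * β (of j)⁻¹) := by
  refine ⟨fun h => by simp at h, fun _ => ?_, fun h => by simp at h⟩
  obtain ⟨t, ht, m, hm, h1⟩ := hI.2.1 rfl
  refine ⟨t + 1, by omega, m, hm, ?_⟩
  rw [← h1, map_inv, pow_succ', ← mul_assoc, inv_mul_cancel_right]

lemma inv_run2 {n : ℕ} {j : Fin r} {g : FreeGroup (Fin r)}
    (hI : Inv β L R N n (j, 2) g) : Inv β L R N (n + 1) (j, 2) (g * β (of j)⁻¹) := by
  refine ⟨fun h => by simp at h, fun h => by simp at h, fun _ => ?_⟩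
  obtain ⟨t, ht, h1⟩ := hI.2.2 rfl
  refine ⟨t + 1, by omega, ?_⟩
  rwa [map_inv, pow_succ', ← mul_assoc, inv_mul_cancel_right]

lemma Inv.step (h : Data N 0 β L R) {n : ℕ} (hn : n ≤ N) {s s' : Fin r × Fin 3} {a : Fin r × Bool}
    {g : FreeGroup (Fin r)} (hI : Inv β L R N n s g) (hs : step s a = some s') :
    Inv β L R N (n + 1) s' (g * β (ltr a)) := by
  obtain ⟨j, b⟩ := a
  obtain ⟨i, f⟩ := s
  unfold PP.step at hs
  cases b
  · simp only [Bool.false_eq_true, if_false] at hs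
    have hl : ltr (j, false) = (of j)⁻¹ := by simp [ltr]
    rw [hl]
    split_ifs at hs with h1 h2 h3 h4 h5 h6
    · obtain rfl := Option.some.inj hs
      exact inv_one h hn hI (by simp [h1]) j h3
    · obtain rfl := Option.some.inj hs
      exact inv_two h hn hI j (by simp [h1])
    · obtain rfl := Option.some.inj hs
      rcases h5 with h5 | h5
      · subst h5
        subst h4
        exact inv_run1 hI
      · exact inv_one h hn hI (by simp [h4]) j h5
    · obtain rfl := Option.some.inj hs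
      exact inv_two h hn hI j (by simp [h4])
    · obtain rfl := Option.some.inj hs
      have hf : f = 2 := by
        have := f.2
        fin_cases f <;> simp_all
      subst hf
      rcases h6 with h6 | h6
      · subst h6
        exact inv_run2 hI
      · exact inv_two h hn hI j fun _ => h6
  · simp only [if_true] at hs
    have hl : ltr (j, true) = of j := by simp [ltr]
    rw [hl]
    split_ifs at hs with h1 h2 h3 h4
    · obtain rfl := Option.some.inj hs
      exact inv_pos h hn hI j (by simp [h1])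
    · obtain rfl := Option.some.inj hs
      exact inv_pos h hn hI j (by simp [h2])
    · obtain rfl := Option.some.inj hs
      exact inv_pos h hn hI j fun _ => h4

end Inv

end Pool.Agent.V7H20.PP
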