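import Pool.Agent.V7H20.PP.Count

/-!
# The growth rate
-/

set_option autoImplicit false

namespace Pool.Agent.V7H20.PP

open Filter Topology

/-- the exponential growth rate of the potentially positive elements -/
noncomputable def gamma (r : ℕ) : ℝ :=
  limsup (fun n : ℕ => (p r n : ℝ) ^ ((1 : ℝ) / (n : ℝ))) atTop

theorem growth {r : ℕ} (v : Fin r × Fin 3 → ℕ) (A B V : ℕ) (hA : 0 < A) (hB : 0 < B)
    (hV : ∀ s, v s ≤ V * cnt 1 s)
    (hv : ∀ s, A * v s ≤ B * ∑ a : Fin r × Bool, (step s a).elim 0 v) (i : Fin r)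
    (hi : 0 < v (i, 0)) :
    (∃ c : ℝ, 0 < c ∧ ∀ n : ℕ, 2 ≤ n → c * ((A : ℝ) / B) ^ n ≤ p r n) ∧ (A : ℝ) / B ≤ gamma r := by
  have hAr : (0 : ℝ) < A := by exact_mod_cast hA
  have hBr : (0 : ℝ) < B := by exact_mod_cast hB
  have hir : (0 : ℝ) < v (i, 0) := by exact_mod_cast hi
  have hV0 : 0 < V := by
    rcases Nat.eq_zero_or_pos V with h | h
    · have := hV (i, 0)
      rw [h, zero_mul] at this
      omega
    · exact h
  have hVr : (0 : ℝ) < V := by exact_mod_cast hV0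
  have hlam : (0 : ℝ) < (A : ℝ) / B := div_pos hAr hBr
  obtain ⟨c, hc, hcn⟩ : ∃ c : ℝ, 0 < c ∧ ∀ n : ℕ, 2 ≤ n → c * ((A : ℝ) / B) ^ n ≤ p r n := by
    refine ⟨(v (i, 0) : ℝ) / V / ((A : ℝ) / B) ^ 2, by positivity, fun n hn => ?_⟩
    obtain ⟨m, rfl⟩ := Nat.exists_eq_add_of_le' hn
    have h1 := cnt_ge v A B V hV hv m (i, 0)
    have h2 := cnt_le_p i (m + 1)
    have h3 : A ^ m * v (i, 0) ≤ B ^ m * (V * p r (m + 2)) :=
      h1.trans (Nat.mul_le_mul_left _ (Nat.mul_le_mul_left _ h2))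
    have h4 : (A : ℝ) ^ m * v (i, 0) ≤ (B : ℝ) ^ m * (V * p r (m + 2)) := by exact_mod_cast h3
    have h5 : (v (i, 0) : ℝ) / V / ((A : ℝ) / B) ^ 2 * ((A : ℝ) / B) ^ (m + 2) =
        (A : ℝ) ^ m * v (i, 0) / (B ^ m * V) := by
      rw [pow_add]
      field_simp
      rw [← mul_pow, div_mul_cancel₀ _ hBr.ne']
    rw [h5, div_le_iff₀ (by positivity)]
    linarith
  refine ⟨⟨c, hc, hcn⟩, ?_⟩
  have hf : Tendsto (fun n : ℕ => c ^ ((1 : ℝ) / (n : ℝ)) * ((A : ℝ) / B)) atTop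
      (𝓝 ((A : ℝ) / B)) := by
    have h1 : Tendsto (fun n : ℕ => c ^ ((1 : ℝ) / (n : ℝ))) atTop (𝓝 (c ^ (0 : ℝ))) :=
      tendsto_const_nhds.rpow tendsto_one_div_atTop_nhds_zero_nat (Or.inl hc.ne')
    have h2 := h1.mul_const ((A : ℝ) / B)
    rwa [Real.rpow_zero, one_mul] at h2
  have hle : ∀ᶠ n : ℕ in atTop, c ^ ((1 : ℝ) / (n : ℝ)) * ((A : ℝ) / B) ≤
      (p r n : ℝ) ^ ((1 : ℝ) / (n : ℝ)) := by
    filter_upwards [eventually_ge_atTop 2] with n hn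
    have hn0 : (n : ℝ) ≠ 0 := by
      have : 0 < n := by omega
      exact_mod_cast this.ne'
    have h1 : c ^ ((1 : ℝ) / (n : ℝ)) * ((A : ℝ) / B) =
        (c * ((A : ℝ) / B) ^ n) ^ ((1 : ℝ) / (n : ℝ)) := by
      rw [Real.mul_rpow hc.le (by positivity), ← Real.rpow_natCast ((A : ℝ) / B) n,
        ← Real.rpow_mul hlam.le, mul_one_div_cancel hn0, Real.rpow_one]
    rw [h1]
    exact Real.rpow_le_rpow (by positivity) (hcn n hn) (by positivity)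
  have hbdd : IsBoundedUnder (· ≤ ·) atTop (fun n : ℕ => (p r n : ℝ) ^ ((1 : ℝ) / (n : ℝ))) := by
    refine isBoundedUnder_of_eventually_le (a := 2 * (r : ℝ)) ?_
    filter_upwards [eventually_ge_atTop 1] with n hn
    have hn0 : (n : ℝ) ≠ 0 := by
      have : 0 < n := by omega
      exact_mod_cast this.ne'
    have h1 : (p r n : ℝ) ≤ (2 * (r : ℝ)) ^ n := by exact_mod_cast p_le r n
    calc (p r n : ℝ) ^ ((1 : ℝ) / (n : ℝ)) ≤ ((2 * (r : ℝ)) ^ n) ^ ((1 : ℝ) / (n : ℝ)) :=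
          Real.rpow_le_rpow (by positivity) h1 (by positivity)
      _ = 2 * (r : ℝ) := by
          rw [← Real.rpow_natCast (2 * (r : ℝ)) n, ← Real.rpow_mul (by positivity),
            mul_one_div_cancel hn0, Real.rpow_one]
  unfold gamma
  rw [← hf.limsup_eq]
  exact limsup_le_limsup hle hf.isCoboundedUnder_le hbdd

/-- the weights for rank 3 -/
def v3 (s : Fin 3 × Fin 3) : ℕ :=
  (![![2000, 2000, 0], ![1601, 1601, 663], ![1414, 1414, 1414]] : Fin 3 → Fin 3 → ℕ) s.1 s.2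

/-- the weights for rank 4 -/
def v4 (s : Fin 4 × Fin 3) : ℕ :=
  (![![10000, 10000, 0], ![8489, 8489, 2165], ![7534, 7534, 4472], ![7071, 7071, 7071]] :
    Fin 4 → Fin 3 → ℕ) s.1 s.2

/-- the weights for rank 5 -/
def v5 (s : Fin 5 × Fin 3) : ℕ :=
  (![![10000, 10000, 0], ![8784, 8784, 1607], ![7911, 7911, 3277], ![7347, 7347, 5075],
    ![7071, 7071, 7071]] : Fin 5 → Fin 3 → ℕ) s.1 s.2

theorem growth3 : (∃ c : ℝ, 0 < c ∧ ∀ n : ℕ, 2 ≤ n → c * ((803 : ℕ) / (200 : ℕ) : ℝ) ^ n ≤ p 3 n) ∧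
    ((803 : ℕ) / (200 : ℕ) : ℝ) ≤ gamma 3 :=
  growth v3 803 200 2000 (by norm_num) (by norm_num) (by decide +kernel) (by decide +kernel) 0
    (by decide)

theorem growth4 : (∃ c : ℝ, 0 < c ∧ ∀ n : ℕ, 2 ≤ n → c * ((2809 : ℕ) / (500 : ℕ) : ℝ) ^ n ≤ p 4 n) ∧
    ((2809 : ℕ) / (500 : ℕ) : ℝ) ≤ gamma 4 :=
  growth v4 2809 500 10000 (by norm_num) (by norm_num) (by decide +kernel) (by decide +kernel) 0
    (by decide)

theorem growth5 : (∃ c : ℝ, 0 < c ∧ ∀ n : ℕ, 2 ≤ n → c * ((3611 : ℕ) / (500 : ℕ) : ℝ) ^ n ≤ p 5 n) ∧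
    ((3611 : ℕ) / (500 : ℕ) : ℝ) ≤ gamma 5 :=
  growth v5 3611 500 10000 (by norm_num) (by norm_num) (by decide +kernel) (by decide +kernel) 0
    (by decide)

end Pool.Agent.V7H20.PP
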